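import Pool.Agent.V8H26.LT.Op
import Pool.Agent.N496.LT.Defs

/-!
# Project LT, job P5A: the kernel of the Laplacians, all degrees at once
-/

set_option autoImplicit false
set_option linter.all false

open scoped InnerProductSpace Topology Matrix

noncomputable section

namespace Pool.Agent.V8H26.LT

open Pool.Agent.N496.LT Pool.Agent.TH630.Tor Pool.Agent.Helper993.FK Pool.Agent.Helper993.Delta

/-- an operator whose kernel has dimension zero is injective -/
theorem inj_of_dimKer {G : Type} [Group G] {r : ℕ} (A : Matrix (Fin r) (Fin r) (MonoidAlgebra ℤ G))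
    (h : dimKer (rMul (A.map toQ)) = 0) : ∀ v, rMul (A.map toQ) v = 0 → v = 0 := by
  obtain ⟨T, hT⟩ : ∃ T, T = rMul (A.map toQ) := ⟨_, rfl⟩
  rw [← hT] at h
  have key : ∀ i, ∀ x ∈ T.ker, ⟪(unitVec i : L2Pow G r), x⟫_ℂ = 0 := by
    have h1 : ∀ i, (⟪(unitVec i : L2Pow G r), T.ker.starProjection (unitVec i)⟫_ℂ).re =
        ‖T.ker.starProjection (unitVec i)‖ ^ 2 := by
      intro i
      have h2 := Submodule.starProjection_inner_eq_zero (K := T.ker) (unitVec i : L2Pow G r)
        (T.ker.starProjection (unitVec i)) (Submodule.starProjection_apply_mem _ _)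
      rw [inner_sub_left, sub_eq_zero] at h2
      have h5 := congrArg Complex.re h2
      rw [inner_self_eq_norm_sq_to_K] at h5
      refine h5.trans ?_
      norm_cast
    unfold dimKer at h
    have h3 := (Finset.sum_eq_zero_iff_of_nonneg (fun i _ => by rw [h1]; positivity)).1 h
    intro i x hx
    have h4 : T.ker.starProjection (unitVec i) = 0 := by
      have := h3 i (Finset.mem_univ i)
      rw [h1] at this
      exact norm_eq_zero.1 (pow_eq_zero_iff two_ne_zero |>.1 this)
    have h5 := Submodule.starProjection_inner_eq_zero (K := T.ker) (unitVec i : L2Pow G r) x hx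
    rwa [h4, sub_zero] at h5
  intro w hw
  apply coord_ext
  intro j g
  rw [coord_zero]
  obtain ⟨w', hw'⟩ := exists_translate w g
  have h1 : rMul (A.map toQ) w' = 0 := by
    apply coord_ext
    intro k h
    rw [coord_zero, rMul_apply]
    have := congrArg (fun x => coord x k (g * h)) hw
    simp only [coord_zero, rMul_apply] at this
    rw [← this]
    simp only [hw', mul_assoc]
  have h2 := key j w' (by rw [LinearMap.mem_ker, hT]; exact h1)
  rw [inner_unitVec, hw', mul_one] at h2
  exact h2

section cx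

variable {G : Type} [Group G] (C : GCx G)

/-- the Dirac operator -/
def dir : Matrix C.ι C.ι (MonoidAlgebra ℤ G) := C.D + adj C.D

/-- the Laplacian, in all degrees at once -/
def lap : Matrix C.ι C.ι (MonoidAlgebra ℤ G) := C.D * adj C.D + adj C.D * C.D

theorem adj_dir : adj (dir C) = dir C := by
  unfold dir
  rw [adj_add, adj_adj, add_comm]

theorem op_lap : op (lap C) = op (dir C) ∘L op (dir C) := by
  rw [← op_mul]
  have h0 : op (C.D * C.D) = 0 := by rw [C.D_sq, op_zero]
  have h1 : op (adj C.D * adj C.D) = 0 := by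
    rw [op_mul, op_adj, ← ContinuousLinearMap.adjoint_comp, ← op_mul, C.D_sq, op_zero, map_zero]
  have e : dir C * dir C = C.D * C.D + adj C.D * adj C.D + lap C := by
    unfold dir lap
    rw [add_mul, mul_add, mul_add]
    abel
  rw [e, op_add, op_add, h0, h1, add_zero, zero_add]

theorem adj_D_ne {i j : C.ι} (h : adj C.D i j ≠ 0) : C.deg j = C.deg i + 1 := by
  apply C.D_deg
  intro h0
  apply h
  show MonoidAlgebra.mapDomain (fun g => g⁻¹) (C.D j i) = 0
  rw [h0, MonoidAlgebra.mapDomain_zero]

theorem lap_deg {i j : C.ι} (h : C.deg i ≠ C.deg j) : lap C i j = 0 := by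
  unfold lap
  rw [Matrix.add_apply, Matrix.mul_apply, Matrix.mul_apply]
  have h1 : ∑ k, C.D i k * adj C.D k j = 0 := by
    apply Finset.sum_eq_zero
    intro k _
    by_cases h2 : C.D i k = 0
    · rw [h2, zero_mul]
    by_cases h3 : adj C.D k j = 0
    · rw [h3, mul_zero]
    exfalso
    have := C.D_deg _ _ h2
    have := adj_D_ne C h3
    omega
  have h2 : ∑ k, adj C.D i k * C.D k j = 0 := by
    apply Finset.sum_eq_zero
    intro k _
    by_cases h2 : adj C.D i k = 0
    · rw [h2, zero_mul]
    by_cases h3 : C.D k j = 0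
    · rw [h3, mul_zero]
    exfalso
    have := C.D_deg _ _ h3
    have := adj_D_ne C h2
    omega
  rw [h1, h2, add_zero]

/-- the Laplacian in degree `n` -/
def lapn (n : ℕ) : Matrix {i : C.ι // C.deg i = n} {i : C.ι // C.deg i = n} (MonoidAlgebra ℤ G) :=
  Matrix.of fun a b => lap C a.1 b.1

/-- the boundary matrix -/
def dn (n : ℕ) : Matrix (Fin (Fintype.card {i : C.ι // C.deg i = n + 1}))
    (Fin (Fintype.card {i : C.ι // C.deg i = n})) (MonoidAlgebra ℤ G) := C.toFree.d n

/-- the matrix of the Laplacian -/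
def lm (n : ℕ) : Matrix (Fin (Fintype.card {i : C.ι // C.deg i = n}))
    (Fin (Fintype.card {i : C.ι // C.deg i = n})) (MonoidAlgebra ℤ G) := C.toFree.lapM n

theorem lm_zero : lm C 0 = adjZ (dn C 0) * dn C 0 := rfl

theorem lm_succ (n : ℕ) : lm C (n + 1) = adjZ (dn C (n + 1)) * dn C (n + 1) +
    dn C n * adjZ (dn C n) := rfl

theorem dn_apply (n : ℕ) (a : {i : C.ι // C.deg i = n + 1}) (b : {i : C.ι // C.deg i = n}) :
    dn C n (Fintype.equivFin _ a) (Fintype.equivFin _ b) = C.D a.1 b.1 := by
  show C.D ((Fintype.equivFin {i : C.ι // C.deg i = n + 1}).symm (Fintype.equivFin _ a)).1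
    ((Fintype.equivFin {i : C.ι // C.deg i = n}).symm (Fintype.equivFin _ b)).1 = _
  rw [Equiv.symm_apply_apply, Equiv.symm_apply_apply]

theorem lm_eq (n : ℕ) : lm C n =
    (lapn C n).submatrix (Fintype.equivFin _).symm (Fintype.equivFin _).symm := by
  have k1 : ∀ (n : ℕ) (a b : {i : C.ι // C.deg i = n}),
      (adjZ (dn C n) * dn C n) (Fintype.equivFin _ a) (Fintype.equivFin _ b) =
        (adj C.D * C.D) a.1 b.1 := by
    intro n a b
    rw [Matrix.mul_apply, Matrix.mul_apply]
    have h1 := sum_deg C.deg (n + 1) (fun k => adj C.D a.1 k * C.D k b.1) (fun k hk => by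
      by_cases h0 : C.D k b.1 = 0
      · rw [h0, mul_zero]
      · exfalso
        apply hk
        rw [C.D_deg _ _ h0, b.2])
    rw [← h1, ← (Fintype.equivFin {i : C.ι // C.deg i = n + 1}).sum_comp]
    apply Finset.sum_congr rfl
    intro k _
    show MonoidAlgebra.mapDomain (fun g => g⁻¹) (dn C n (Fintype.equivFin _ k) (Fintype.equivFin _ a)) *
      dn C n (Fintype.equivFin _ k) (Fintype.equivFin _ b) = _
    rw [dn_apply, dn_apply]
    rfl
  have k2 : ∀ (n : ℕ) (a b : {i : C.ι // C.deg i = n + 1}),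
      (dn C n * adjZ (dn C n)) (Fintype.equivFin _ a) (Fintype.equivFin _ b) =
        (C.D * adj C.D) a.1 b.1 := by
    intro n a b
    rw [Matrix.mul_apply, Matrix.mul_apply]
    have h1 := sum_deg C.deg n (fun k => C.D a.1 k * adj C.D k b.1) (fun k hk => by
      by_cases h0 : C.D a.1 k = 0
      · rw [h0, zero_mul]
      · exfalso
        apply hk
        have := C.D_deg _ _ h0
        rw [a.2] at this
        omega)
    rw [← h1, ← (Fintype.equivFin {i : C.ι // C.deg i = n}).sum_comp]
    apply Finset.sum_congr rfl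
    intro k _
    show dn C n (Fintype.equivFin _ a) (Fintype.equivFin _ k) *
      MonoidAlgebra.mapDomain (fun g => g⁻¹) (dn C n (Fintype.equivFin _ b) (Fintype.equivFin _ k)) = _
    rw [dn_apply, dn_apply]
    rfl
  ext1 x y
  obtain ⟨a, rfl⟩ := (Fintype.equivFin {i : C.ι // C.deg i = n}).surjective x
  obtain ⟨b, rfl⟩ := (Fintype.equivFin {i : C.ι // C.deg i = n}).surjective y
  rw [Matrix.submatrix_apply, Equiv.symm_apply_apply, Equiv.symm_apply_apply]
  cases n with
  | zero =>
    rw [lm_zero, k1]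
    show _ = lap C a.1 b.1
    unfold lap
    rw [Matrix.add_apply]
    have h1 : (C.D * adj C.D) a.1 b.1 = 0 := by
      rw [Matrix.mul_apply]
      apply Finset.sum_eq_zero
      intro k _
      by_cases h0 : C.D a.1 k = 0
      · rw [h0, zero_mul]
      · exfalso
        have := C.D_deg _ _ h0
        rw [a.2] at this
        omega
    rw [h1, zero_add]
  | succ n =>
    rw [lm_succ, Matrix.add_apply, k1, k2, add_comm]
    rfl

theorem laplacian_op (n : ℕ) : C.toFree.laplacian n = op (lapn C n) := by
  rw [FreeCx.laplacian_eq]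
  show rMul ((lm C n).map toQ) = _
  rw [lm_eq]
  rfl

/-- the kernel of the Laplacians is trivial -/
theorem inj_of_det (h : C.toFree.DetL2Acyclic) : ∀ v, op (dir C) v = 0 → v = 0 := by
  intro v hv
  have h1 : op (lap C) v = 0 := by
    rw [op_lap, ContinuousLinearMap.comp_apply, hv, map_zero]
  apply co_ext
  intro i g
  rw [co_zero]
  obtain ⟨w, hw⟩ := exists_pull (ι := {x : C.ι // C.deg x = C.deg i}) (G := G) v
    (fun p => (p.1.1, p.2)) (by
      rintro ⟨⟨a, ha⟩, x⟩ ⟨⟨b, hb⟩, y⟩ hab
      simp only [Prod.mk.injEq] at hab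
      obtain ⟨rfl, rfl⟩ := hab
      rfl)
  have hw' : ∀ x g, co w x g = co v x.1 g := hw
  have h2 : op (lapn C (C.deg i)) w = 0 := by
    apply co_ext
    intro b h
    rw [co_zero, co_op]
    have h3 := congrArg (fun x => co x b.1 h) h1
    simp only [co_zero, co_op] at h3
    rw [← h3, ← sum_deg C.deg (C.deg i) (fun k => cv (lap C k b.1) (co v k) h) (fun k hk => by
      show cv (lap C k b.1) (co v k) h = 0
      rw [lap_deg C (by rw [b.2]; exact hk), cv_zero])]
    apply Finset.sum_congr rfl
    intro a _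
    have : co w a = co v a.1 := funext fun g => hw' a g
    rw [this]
    rfl
  have h3 : w = 0 := by
    have h4 := (h (C.deg i)).1
    unfold FreeCx.l2betti at h4
    rw [laplacian_op] at h4
    exact inj_of_dimKer _ h4 w h2
  have h4 := hw' ⟨i, rfl⟩ g
  rw [h3, co_zero] at h4
  exact h4.symm

/-- the Laplacians are injective -/
theorem lapn_inj (h : ∀ v, op (dir C) v = 0 → v = 0) (n : ℕ) :
    ∀ u, op (lapn C n) u = 0 → u = 0 := by
  intro u hu
  obtain ⟨v, hv⟩ := exists_ext (fun x : C.ι => C.deg x = n) u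
  have h1 : op (lap C) v = 0 := by
    apply co_ext
    intro y h
    rw [co_zero, co_op, ← sum_deg C.deg n (fun k => cv (lap C k y) (co v k) h) (fun k hk => by
      show cv (lap C k y) (co v k) h = 0
      have h5 : co v k = fun _ => 0 := funext fun g => by rw [hv, dif_neg hk]
      rw [h5]
      unfold cv
      simp)]
    by_cases hy : C.deg y = n
    · have h3 := congrArg (fun x => co x ⟨y, hy⟩ h) hu
      simp only [co_zero, co_op] at h3
      rw [← h3]
      apply Finset.sum_congr rfl
      intro a _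
      have : co v a.1 = co u a := funext fun g => by rw [hv, dif_pos a.2]
      rw [this]
      rfl
    · apply Finset.sum_eq_zero
      intro a _
      rw [lap_deg C (by rw [a.2]; exact fun h => hy h.symm), cv_zero]
  rw [op_lap, ContinuousLinearMap.comp_apply] at h1
  have h2 : op (dir C) v = 0 := h _ h1
  have h3 : v = 0 := h _ h2
  apply co_ext
  intro a g
  have h4 := hv a.1 g
  rw [h3, co_zero, dif_pos a.2] at h4
  rw [co_zero]
  exact h4.symm

theorem dimKer_zero_of_inj {r : ℕ} (T : L2Pow G r →L[ℂ] L2Pow G r) (h : ∀ v, T v = 0 → v = 0) :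
    dimKer T = 0 := FreeCx.dimKer_of_inj T h

/-- **acyclicity over a residually finite group** -/
theorem det_of_inj (hG : ResFin G) (h : ∀ v, op (dir C) v = 0 → v = 0) : C.toFree.DetL2Acyclic := by
  obtain ⟨N, hN, hf, ha, hi⟩ := hG
  haveI := hN
  haveI : ∀ i, Finite (G ⧸ N i) := fun i => @Subgroup.finite_quotient_of_finiteIndex _ _ _ (hf i)
  intro n
  have h1 := lapn_inj C h n
  unfold FreeCx.l2betti
  rw [laplacian_op]
  refine ⟨FreeCx.dimKer_of_inj _ h1, ?_⟩
  by_cases hr : Fintype.card {i : C.ι // C.deg i = n} = 0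
  · exact fkDet_pos_of_eq_zero hr _
  · haveI : NeZero (C.toFree.rank n) := ⟨hr⟩
    exact fkDet_pos N ha hi _ h1

end cx

end Pool.Agent.V8H26.LT
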