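import Pool.Agent.TH630.Tor.Cx

/-!
# Project LT, job P5A: operators of matrices over finite index sets
-/

set_option autoImplicit false
set_option linter.all false

open scoped InnerProductSpace Topology Matrix

noncomputable section

namespace Pool.Agent.V8H26.LT

open Pool.Agent.TH630.Tor Pool.Agent.Helper993.FK Pool.Agent.Helper993.Delta

section op

variable {G : Type} [Group G] {ι κ μ : Type} [Fintype ι] [Fintype κ] [Fintype μ]

/-- the operator of a matrix over finite index sets -/
def op (A : Matrix ι κ (MonoidAlgebra ℤ G)) :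
    L2Pow G (Fintype.card ι) →L[ℂ] L2Pow G (Fintype.card κ) :=
  rMul ((A.submatrix (Fintype.equivFin ι).symm (Fintype.equivFin κ).symm).map toQ)

/-- coordinates -/
def co (v : L2Pow G (Fintype.card ι)) (i : ι) (g : G) : ℂ := coord v (Fintype.equivFin ι i) g

theorem co_ext {v w : L2Pow G (Fintype.card ι)} (h : ∀ i g, co v i g = co w i g) : v = w := by
  apply coord_ext
  intro j g
  have := h ((Fintype.equivFin ι).symm j) g
  unfold co at this
  rwa [Equiv.apply_symm_apply] at this

theorem co_zero (i : ι) (g : G) : co (0 : L2Pow G (Fintype.card ι)) i g = 0 := rfl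

/-- the convolution -/
def cv (a : MonoidAlgebra ℤ G) (f : G → ℂ) (h : G) : ℂ :=
  a.coeff.sum fun g c => (c : ℂ) * f (h * g⁻¹)

theorem cv_zero (f : G → ℂ) (h : G) : cv 0 f h = 0 := Finsupp.sum_zero_index

theorem co_op (A : Matrix ι κ (MonoidAlgebra ℤ G)) (v : L2Pow G (Fintype.card ι)) (j : κ) (h : G) :
    co (op A v) j h = ∑ i, cv (A i j) (co v i) h := by
  unfold co op
  rw [rMul_apply, ← (Fintype.equivFin ι).sum_comp]
  apply Finset.sum_congr rfl
  intro i _
  unfold cv Finsupp.sum
  have h1 : ∀ g, (((A.submatrix (Fintype.equivFin ι).symm (Fintype.equivFin κ).symm).map toQ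
      ((Fintype.equivFin ι) i) ((Fintype.equivFin κ) j)).coeff g : ℚ) = (((A i j).coeff g : ℤ) : ℚ) := by
    intro g
    rw [Matrix.map_apply, Matrix.submatrix_apply, Equiv.symm_apply_apply, Equiv.symm_apply_apply,
      toQ_coeff]
  have h2 : ((A.submatrix (Fintype.equivFin ι).symm (Fintype.equivFin κ).symm).map toQ
      ((Fintype.equivFin ι) i) ((Fintype.equivFin κ) j)).coeff.support = (A i j).coeff.support := by
    ext g
    rw [Finsupp.mem_support_iff, Finsupp.mem_support_iff, h1]
    exact Int.cast_ne_zero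
  rw [h2]
  apply Finset.sum_congr rfl
  intro g _
  rw [h1]
  congr 1

theorem op_mul (A : Matrix ι κ (MonoidAlgebra ℤ G)) (B : Matrix κ μ (MonoidAlgebra ℤ G)) :
    op (A * B) = op B ∘L op A := by
  unfold op
  rw [← rMul_mul, ← toQ_mul, Matrix.submatrix_mul_equiv]

theorem op_add (A B : Matrix ι κ (MonoidAlgebra ℤ G)) : op (A + B) = op A + op B := by
  unfold op
  rw [← rMul_add, ← toQ_add]
  rfl

theorem op_zero : op (0 : Matrix ι κ (MonoidAlgebra ℤ G)) = 0 := by
  have h := op_add (0 : Matrix ι κ (MonoidAlgebra ℤ G)) 0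
  rw [add_zero] at h
  exact left_eq_add.1 h

/-- the adjoint matrix -/
def adj (A : Matrix ι κ (MonoidAlgebra ℤ G)) : Matrix κ ι (MonoidAlgebra ℤ G) :=
  A.transpose.map (MonoidAlgebra.mapDomain fun g => g⁻¹)

theorem op_adj (A : Matrix ι κ (MonoidAlgebra ℤ G)) : op (adj A) = (op A).adjoint := by
  unfold op
  rw [adjoint_rMul, ← toQ_adjZ]
  rfl

theorem adj_add (A B : Matrix ι κ (MonoidAlgebra ℤ G)) : adj (A + B) = adj A + adj B := by
  ext1 i j
  exact MonoidAlgebra.mapDomain_add _ _ _

theorem inv_inv' (a : MonoidAlgebra ℤ G) :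
    MonoidAlgebra.mapDomain (fun g : G => g⁻¹) (MonoidAlgebra.mapDomain (fun g : G => g⁻¹) a) = a := by
  ext g
  simp only [MonoidAlgebra.mapDomain, MonoidAlgebra.coeff_ofCoeff, ← Finsupp.mapDomain_comp]
  have : ((fun g : G => g⁻¹) ∘ fun g : G => g⁻¹) = id := by
    funext x
    exact inv_inv x
  rw [this, Finsupp.mapDomain_id]

theorem adj_adj (A : Matrix ι κ (MonoidAlgebra ℤ G)) : adj (adj A) = A := by
  ext1 i j
  exact inv_inv' _

/-- two anticommuting selfadjoint matrices -/
theorem anti_ker {X Y : Matrix ι ι (MonoidAlgebra ℤ G)} (hX : adj X = X) (hY : adj Y = Y)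
    (hXY : X * Y + Y * X = 0) {v : L2Pow G (Fintype.card ι)}
    (h : op (X + Y) (op (X + Y) v) = 0) : op X v = 0 ∧ op Y v = 0 := by
  have h1 : op (X + Y) ∘L op (X + Y) = op X ∘L op X + op Y ∘L op Y := by
    rw [← op_mul, ← op_mul, ← op_mul, ← op_add]
    have e : (X + Y) * (X + Y) = X * X + Y * Y + (X * Y + Y * X) := by
      rw [add_mul, mul_add, mul_add]
      abel
    rw [e, hXY, add_zero]
  have hX' : (op X).adjoint = op X := by rw [← op_adj, hX]
  have hY' : (op Y).adjoint = op Y := by rw [← op_adj, hY]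
  have h2 : (op Y ∘L (op Y).adjoint + (op X).adjoint ∘L op X) v = 0 := by
    rw [hX', hY', add_comm, ← h1]
    exact h
  obtain ⟨h3, h4⟩ := lap_ker (op X) (op Y) v h2
  rw [hY'] at h4
  exact ⟨h3, h4⟩

/-- pull back of a vector by an injection -/
theorem exists_pull {H : Type} (v : L2Pow H (Fintype.card κ)) (φ : ι × G → κ × H)
    (hφ : Function.Injective φ) :
    ∃ w : L2Pow G (Fintype.card ι), ∀ i g, co w i g = coord v (Fintype.equivFin κ (φ (i, g)).1) (φ (i, g)).2 := by
  have h3 : Function.Injective (fun p : Fin (Fintype.card ι) × G =>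
      ((Fintype.equivFin κ (φ ((Fintype.equivFin ι).symm p.1, p.2)).1,
        (φ ((Fintype.equivFin ι).symm p.1, p.2)).2) : Fin (Fintype.card κ) × H)) := by
    rintro ⟨i, a⟩ ⟨j, b⟩ hab
    simp only [Prod.mk.injEq, EmbeddingLike.apply_eq_iff_eq] at hab
    have := hφ (Prod.ext hab.1 hab.2)
    simp only [Prod.mk.injEq, EmbeddingLike.apply_eq_iff_eq] at this
    exact Prod.ext this.1 this.2
  have h1 := (coord_summable v).comp_injective h3
  have h2 : Memℓp (fun p : Fin (Fintype.card ι) × G =>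
      coord v (Fintype.equivFin κ (φ ((Fintype.equivFin ι).symm p.1, p.2)).1)
        (φ ((Fintype.equivFin ι).symm p.1, p.2)).2) 2 := memℓp_gen h1
  refine ⟨(⟨_, h2⟩ : lp (fun _ : Fin (Fintype.card ι) × G => ℂ) 2), fun i g => ?_⟩
  show coord v (Fintype.equivFin κ (φ ((Fintype.equivFin ι).symm (Fintype.equivFin ι i), g)).1)
    (φ ((Fintype.equivFin ι).symm (Fintype.equivFin ι i), g)).2 = _
  rw [Equiv.symm_apply_apply]

open Classical in
/-- extension of a vector by zero -/
theorem exists_ext (p : κ → Prop) [Fintype {x // p x}] (u : L2Pow G (Fintype.card {x // p x})) :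
    ∃ v : L2Pow G (Fintype.card κ), ∀ x g, co v x g = if h : p x then co u ⟨x, h⟩ g else 0 := by
  have h3 : Function.Injective (fun q : Fin (Fintype.card {x // p x}) × G =>
      ((Fintype.equivFin κ ((Fintype.equivFin {x // p x}).symm q.1).1, q.2) :
        Fin (Fintype.card κ) × G)) := by
    rintro ⟨i, a⟩ ⟨j, b⟩ hab
    simp only [Prod.mk.injEq, EmbeddingLike.apply_eq_iff_eq] at hab
    have h4 := Subtype.ext hab.1
    simp only [EmbeddingLike.apply_eq_iff_eq] at h4
    exact Prod.ext h4 hab.2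
  have h1 : Summable (fun q : Fin (Fintype.card κ) × G => ‖(if h : p ((Fintype.equivFin κ).symm q.1)
      then co u ⟨_, h⟩ q.2 else 0 : ℂ)‖ ^ ((2 : ENNReal).toReal)) := by
    rw [← h3.summable_iff]
    · refine (coord_summable u).congr fun q => ?_
      simp only [Function.comp_apply, Equiv.symm_apply_apply]
      rw [dif_pos ((Fintype.equivFin {x // p x}).symm q.1).2]
      unfold co
      simp
    · rintro ⟨i, g⟩ hq
      have : ¬ p ((Fintype.equivFin κ).symm i) := by
        intro hp
        apply hq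
        refine ⟨(Fintype.equivFin {x // p x} ⟨_, hp⟩, g), ?_⟩
        simp
      simp only [dif_neg this]
      simp
  have h2 : Memℓp (fun q : Fin (Fintype.card κ) × G => (if h : p ((Fintype.equivFin κ).symm q.1)
      then co u ⟨_, h⟩ q.2 else 0 : ℂ)) 2 := memℓp_gen h1
  refine ⟨(⟨_, h2⟩ : lp (fun _ : Fin (Fintype.card κ) × G => ℂ) 2), fun x g => ?_⟩
  show (if h : p ((Fintype.equivFin κ).symm (Fintype.equivFin κ x)) then co u ⟨_, h⟩ g else 0 : ℂ) = _
  have h4 : (Fintype.equivFin κ).symm (Fintype.equivFin κ x) = x := Equiv.symm_apply_apply _ _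
  by_cases h : p x
  · rw [dif_pos h, dif_pos (by rw [h4]; exact h)]
    congr 1
    exact Subtype.ext h4
  · rw [dif_neg h, dif_neg (by rw [h4]; exact h)]

end op

end Pool.Agent.V8H26.LT
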