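import Pool.Agent.V8H26.LT.Cx
import Pool.Agent.N496.LT.Main

/-!
# Project LT, job P5A: products of determinant class acyclic complexes
-/

set_option autoImplicit false
set_option linter.all false

open scoped InnerProductSpace Topology Matrix

noncomputable section

namespace Pool.Agent.V8H26.LT

open Pool.Agent.N496.LT Pool.Agent.TH630.Tor Pool.Agent.Helper993.FK Pool.Agent.Helper993.Delta

section prod

variable {G H : Type} [Group G] [Group H]

/-- the inclusion of the first group ring -/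
def il : MonoidAlgebra ℤ G →+* MonoidAlgebra ℤ (G × H) :=
  MonoidAlgebra.mapDomainRingHom ℤ (MonoidHom.inl G H)

/-- the inclusion of the second group ring -/
def ir : MonoidAlgebra ℤ H →+* MonoidAlgebra ℤ (G × H) :=
  MonoidAlgebra.mapDomainRingHom ℤ (MonoidHom.inr G H)

theorem il_ir (a : MonoidAlgebra ℤ G) (b : MonoidAlgebra ℤ H) : il a * ir b = ir b * il a :=
  comm_inl_inr a b

/-- the involution -/
def iv {K : Type} [Group K] (a : MonoidAlgebra ℤ K) : MonoidAlgebra ℤ K :=
  MonoidAlgebra.mapDomain (fun g => g⁻¹) a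

theorem iv_zero {K : Type} [Group K] : iv (0 : MonoidAlgebra ℤ K) = 0 := MonoidAlgebra.mapDomain_zero _

theorem iv_add {K : Type} [Group K] (a b : MonoidAlgebra ℤ K) : iv (a + b) = iv a + iv b :=
  MonoidAlgebra.mapDomain_add _ _ _

theorem iv_il (a : MonoidAlgebra ℤ G) : iv (il a : MonoidAlgebra ℤ (G × H)) = il (iv a) := by
  ext g
  simp only [iv, il, MonoidAlgebra.mapDomainRingHom_apply, MonoidAlgebra.mapDomain,
    MonoidAlgebra.coeff_ofCoeff, ← Finsupp.mapDomain_comp]
  congr 2
  funext x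
  simp

theorem iv_ir (a : MonoidAlgebra ℤ H) : iv (ir a : MonoidAlgebra ℤ (G × H)) = ir (iv a) := by
  ext g
  simp only [iv, ir, MonoidAlgebra.mapDomainRingHom_apply, MonoidAlgebra.mapDomain,
    MonoidAlgebra.coeff_ofCoeff, ← Finsupp.mapDomain_comp]
  congr 2
  funext x
  simp

theorem iv_sign {K : Type} [Group K] (n : ℕ) (a : MonoidAlgebra ℤ K) :
    iv ((-1) ^ n * a) = (-1) ^ n * iv a := by
  have h1 : ∀ a : MonoidAlgebra ℤ K, iv (-a) = -iv a := by
    intro a
    have := iv_add a (-a)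
    rw [add_neg_cancel, iv_zero] at this
    exact (neg_eq_of_add_eq_zero_right this.symm).symm
  rcases neg_one_pow_eq_or (MonoidAlgebra ℤ K) n with h | h
  · rw [h, one_mul, one_mul]
  · rw [h, neg_one_mul, neg_one_mul, h1]

variable (C : GCx G) (E : GCx H)

/-- the first part of the Dirac operator -/
def XX : Matrix (C.ι × E.ι) (C.ι × E.ι) (MonoidAlgebra ℤ (G × H)) :=
  Matrix.of fun x y => if x.2 = y.2 then il (dir C x.1 y.1) else 0

/-- the second part of the Dirac operator -/
def YY : Matrix (C.ι × E.ι) (C.ι × E.ι) (MonoidAlgebra ℤ (G × H)) :=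
  Matrix.of fun x y => if x.1 = y.1 then (-1) ^ C.deg x.1 * ir (dir E x.2 y.2) else 0

theorem dir_iv (i j : C.ι) : dir C i j = C.D i j + iv (C.D j i) := rfl

theorem dir_prod : (dir (C.prod E) : Matrix (C.ι × E.ι) (C.ι × E.ι) (MonoidAlgebra ℤ (G × H))) =
    XX C E + YY C E := by
  refine Matrix.ext fun x y => ?_
  show ((if x.2 = y.2 then il (C.D x.1 y.1) else (0 : MonoidAlgebra ℤ (G × H))) +
      (if x.1 = y.1 then (-1) ^ C.deg x.1 * ir (E.D x.2 y.2) else (0 : MonoidAlgebra ℤ (G × H)))) +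
      iv ((if y.2 = x.2 then il (C.D y.1 x.1) else (0 : MonoidAlgebra ℤ (G × H))) +
      (if y.1 = x.1 then (-1) ^ C.deg y.1 * ir (E.D y.2 x.2) else (0 : MonoidAlgebra ℤ (G × H)))) =
    (if x.2 = y.2 then il (dir C x.1 y.1) else (0 : MonoidAlgebra ℤ (G × H))) +
      (if x.1 = y.1 then (-1) ^ C.deg x.1 * ir (dir E x.2 y.2) else (0 : MonoidAlgebra ℤ (G × H)))
  rw [iv_add]
  have h1 : iv (if y.2 = x.2 then (il (C.D y.1 x.1) : MonoidAlgebra ℤ (G × H)) else 0) =
      if x.2 = y.2 then il (iv (C.D y.1 x.1)) else 0 := by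
    by_cases h : x.2 = y.2
    · rw [if_pos h, if_pos h.symm, iv_il]
    · rw [if_neg h, if_neg (fun h' => h h'.symm), iv_zero]
  have h2 : iv (if y.1 = x.1 then ((-1) ^ C.deg y.1 * ir (E.D y.2 x.2) : MonoidAlgebra ℤ (G × H)) else 0) =
      if x.1 = y.1 then (-1) ^ C.deg x.1 * ir (iv (E.D y.2 x.2)) else 0 := by
    by_cases h : x.1 = y.1
    · rw [if_pos h, if_pos h.symm, iv_sign, iv_ir, h]
    · rw [if_neg h, if_neg (fun h' => h h'.symm), iv_zero]
  rw [h1, h2, dir_iv, dir_iv, map_add, map_add]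
  by_cases h : x.2 = y.2
  · by_cases h' : x.1 = y.1
    · rw [if_pos h, if_pos h', if_pos h, if_pos h', if_pos h, if_pos h', mul_add]
      abel
    · rw [if_pos h, if_neg h', if_pos h, if_neg h', if_pos h, if_neg h']
      abel
  · by_cases h' : x.1 = y.1
    · rw [if_neg h, if_pos h', if_neg h, if_pos h', if_neg h, if_pos h', mul_add]
      abel
    · rw [if_neg h, if_neg h', if_neg h, if_neg h', if_neg h, if_neg h']
      abel

theorem iv_dir (i j : C.ι) : iv (dir C i j) = dir C j i := by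
  have := congrFun (congrFun (adj_dir C) j) i
  exact this

theorem adj_XX : adj (XX C E) = XX C E := by
  ext1 x y
  show iv (if y.2 = x.2 then (il (dir C y.1 x.1) : MonoidAlgebra ℤ (G × H)) else 0) =
    if x.2 = y.2 then il (dir C x.1 y.1) else 0
  by_cases h : x.2 = y.2
  · rw [if_pos h, if_pos h.symm, iv_il, iv_dir]
  · rw [if_neg h, if_neg (fun h' => h h'.symm), iv_zero]

theorem adj_YY : adj (YY C E) = YY C E := by
  ext1 x y
  show iv (if y.1 = x.1 then ((-1) ^ C.deg y.1 * ir (dir E y.2 x.2) : MonoidAlgebra ℤ (G × H)) else 0) =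
    if x.1 = y.1 then (-1) ^ C.deg x.1 * ir (dir E x.2 y.2) else 0
  by_cases h : x.1 = y.1
  · rw [if_pos h, if_pos h.symm, iv_sign, iv_ir, iv_dir, h]
  · rw [if_neg h, if_neg (fun h' => h h'.symm), iv_zero]

theorem dir_deg {i j : C.ι} (h : dir C i j ≠ 0) : C.deg i = C.deg j + 1 ∨ C.deg j = C.deg i + 1 := by
  by_contra hcon
  push Not at hcon
  apply h
  rw [dir_iv]
  have h1 : C.D i j = 0 := by
    by_contra h2
    exact hcon.1 (C.D_deg _ _ h2)
  have h2 : C.D j i = 0 := by
    by_contra h2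
    exact hcon.2 (C.D_deg _ _ h2)
  rw [h1, h2, iv_zero, add_zero]

theorem XY_anti : XX C E * YY C E + YY C E * XX C E = 0 := by
  ext1 x z
  rw [Matrix.add_apply, Matrix.mul_apply, Matrix.mul_apply]
  have h1 : ∑ y, XX C E x y * YY C E y z =
      il (dir C x.1 z.1) * ((-1) ^ C.deg z.1 * ir (dir E x.2 z.2)) := by
    rw [Finset.sum_eq_single (z.1, x.2)]
    · show (if x.2 = x.2 then il (dir C x.1 z.1) else 0) *
        (if z.1 = z.1 then (-1) ^ C.deg z.1 * ir (dir E x.2 z.2) else 0) = _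
      rw [if_pos rfl, if_pos rfl]
    · rintro y - hy
      show (if x.2 = y.2 then il (dir C x.1 y.1) else 0) *
        (if y.1 = z.1 then (-1) ^ C.deg y.1 * ir (dir E y.2 z.2) else 0) = 0
      by_cases h : x.2 = y.2
      · have h' : ¬ y.1 = z.1 := fun h' => hy (Prod.ext h' h.symm)
        rw [if_neg h', mul_zero]
      · rw [if_neg h, zero_mul]
    · intro h
      exact absurd (Finset.mem_univ _) h
  have h2 : ∑ y, YY C E x y * XX C E y z =
      ((-1) ^ C.deg x.1 * ir (dir E x.2 z.2)) * il (dir C x.1 z.1) := by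
    rw [Finset.sum_eq_single (x.1, z.2)]
    · show (if x.1 = x.1 then (-1) ^ C.deg x.1 * ir (dir E x.2 z.2) else 0) *
        (if z.2 = z.2 then il (dir C x.1 z.1) else 0) = _
      rw [if_pos rfl, if_pos rfl]
    · rintro y - hy
      show (if x.1 = y.1 then (-1) ^ C.deg x.1 * ir (dir E x.2 y.2) else 0) *
        (if y.2 = z.2 then il (dir C y.1 z.1) else 0) = 0
      by_cases h : x.1 = y.1
      · have h' : ¬ y.2 = z.2 := fun h' => hy (Prod.ext h.symm h')
        rw [if_neg h', mul_zero]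
      · rw [if_neg h, zero_mul]
    · intro h
      exact absurd (Finset.mem_univ _) h
  rw [h1, h2, Matrix.zero_apply]
  by_cases h : dir C x.1 z.1 = 0
  · rw [h, map_zero, zero_mul, mul_zero, add_zero]
  · have hs : ∀ (n : ℕ) (r : MonoidAlgebra ℤ (G × H)), r * (-1) ^ n = (-1) ^ n * r := fun n r =>
      ((Commute.neg_one_left r).pow_left n).symm.eq
    rw [← mul_assoc, hs, mul_assoc, il_ir, mul_assoc, ← add_mul]
    have h3 : ((-1 : MonoidAlgebra ℤ (G × H)) ^ C.deg z.1 + (-1) ^ C.deg x.1) = 0 := by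
      rcases dir_deg C h with h4 | h4
      · rw [h4, pow_succ, mul_neg_one, add_neg_cancel]
      · rw [h4, pow_succ, mul_neg_one, neg_add_cancel]
    rw [h3, zero_mul]

/-- convolution in the first variable -/
theorem cv_il (a : MonoidAlgebra ℤ G) (f : G × H → ℂ) (g : G) (h : H) :
    cv (il a) f (g, h) = cv a (fun x => f (x, h)) g := by
  unfold cv il
  rw [MonoidAlgebra.mapDomainRingHom_apply, MonoidAlgebra.mapDomain, MonoidAlgebra.coeff_ofCoeff,
    Finsupp.sum_mapDomain_index]
  · apply Finset.sum_congr rfl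
    intro x _
    simp
  · intro b
    simp
  · intro b m₁ m₂
    push_cast
    ring

theorem prod_inj (hC : ∀ w, op (dir C) w = 0 → w = 0)
    (v : L2Pow (G × H) (Fintype.card (C.ι × E.ι))) (h2 : op (XX C E) v = 0) : v = 0 := by
  apply co_ext
  rintro ⟨i, y⟩ ⟨g, h⟩
  rw [co_zero]
  obtain ⟨w, hw⟩ := exists_pull (ι := C.ι) (κ := C.ι × E.ι) (G := G) (H := G × H) v
    (fun p => ((p.1, y), (p.2, h))) (by
      rintro ⟨a, x⟩ ⟨b, x'⟩ hab
      simp only [Prod.mk.injEq, and_true] at hab
      obtain ⟨rfl, rfl⟩ := hab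
      rfl)
  have hw' : ∀ i g, co w i g = co v (i, y) (g, h) := hw
  have h3 : op (dir C) w = 0 := by
    apply co_ext
    intro j g'
    rw [co_zero, co_op]
    have h4 := congrArg (fun x => co x (j, y) (g', h)) h2
    simp only [co_zero, co_op] at h4
    rw [← h4, Fintype.sum_prod_type]
    apply Finset.sum_congr rfl
    intro k _
    rw [Finset.sum_eq_single y]
    · show _ = cv (if y = y then il (dir C k j) else 0) (co v (k, y)) (g', h)
      rw [if_pos rfl, cv_il]
      congr 1
      funext x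
      exact hw' k x
    · intro l _ hl
      show cv (if l = y then il (dir C k j) else 0) (co v (k, l)) (g', h) = 0
      rw [if_neg hl, cv_zero]
    · intro h5
      exact absurd (Finset.mem_univ _) h5
  have h5 := hw' i g
  rw [hC w h3, co_zero] at h5
  exact h5.symm

theorem prod_inj' (hC : ∀ w, op (dir C) w = 0 → w = 0)
    (v : L2Pow (G × H) (Fintype.card (C.ι × E.ι)))
    (A : Matrix (C.ι × E.ι) (C.ι × E.ι) (MonoidAlgebra ℤ (G × H))) (hA : A = XX C E + YY C E)
    (hv : op A v = 0) : v = 0 := by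
  subst hA
  have h1 : op (XX C E + YY C E) (op (XX C E + YY C E) v) = 0 := by
    rw [hv, map_zero]
  obtain ⟨h2, -⟩ := anti_ker (adj_XX C E) (adj_YY C E) (XY_anti C E) h1
  exact prod_inj C E hC v h2

/-- **P5A** -/
theorem p5a : P5A := by
  intro G H _ _ C E hG hH hC
  apply det_of_inj _ (resFin_prod hG hH)
  intro v hv
  exact prod_inj' C E (inj_of_det C hC) v (dir (C.prod E)) (dir_prod C E) hv

end prod

end Pool.Agent.V8H26.LT
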